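import Mathlib

/-!
# `x² + A kⁿ = B` with `A, B > 0` can have five solutions

We show that `x² + 455 · 2ⁿ = 57 · 2³³ = 489626271744` has exactly five solutions `(x, n)` in
non-negative integers, with `n = 0, 20, 22, 28, 30`.
-/

namespace Pool.Agent.Results.MP_ca3412_nt.FiveSolutions

/-- The set of solutions `(x, n)` in non-negative integers of `x ^ 2 + A * k ^ n = B`. -/
def sols (k A B : ℕ) : Set (ℕ × ℕ) := {s | s.1 ^ 2 + A * k ^ s.2 = B}

lemma n_le (x n : ℕ) (h : x ^ 2 + 455 * 2 ^ n = 489626271744) : n ≤ 30 := by
  by_contra hn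
  have h31 : 2 ^ 31 ≤ 2 ^ n := Nat.pow_le_pow_right (by norm_num) (by omega)
  norm_num at h31
  have : 0 ≤ x ^ 2 := Nat.zero_le _
  omega

lemma sq_unique (x r : ℕ) (h : x ^ 2 = r ^ 2) : x = r := by
  exact Nat.pow_left_injective (n := 2) (by norm_num) h

lemma no_sq (x c r : ℕ) (h : x ^ 2 = c) (h1 : r ^ 2 < c) (h2 : c < (r + 1) ^ 2) : False := by
  rw [← h] at h1 h2
  have h3 : r < x := lt_of_pow_lt_pow_left₀ 2 (Nat.zero_le _) h1
  have h4 : x < r + 1 := lt_of_pow_lt_pow_left₀ 2 (Nat.zero_le _) h2
  omega

lemma sols_eq : sols 2 455 489626271744 =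
    {(699733, 0), (699392, 20), (698368, 22), (606208, 28), (32768, 30)} := by
  ext ⟨x, n⟩
  simp only [sols, Set.mem_ofPred_eq, Set.mem_insert_iff, Set.mem_singleton_iff, Prod.mk.injEq]
  constructor
  · intro h
    have hn := n_le x n h
    interval_cases n
    · have h1 : x = 699733 := sq_unique x 699733 (by norm_num at h ⊢; omega)
      simp [h1]
    · exact (no_sq x 489626270834 699732 (by norm_num at h ⊢; omega) (by norm_num) (by norm_num)).elim
    · exact (no_sq x 489626269924 699732 (by norm_num at h ⊢; omega) (by norm_num) (by norm_num)).elim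
    · exact (no_sq x 489626268104 699732 (by norm_num at h ⊢; omega) (by norm_num) (by norm_num)).elim
    · exact (no_sq x 489626264464 699732 (by norm_num at h ⊢; omega) (by norm_num) (by norm_num)).elim
    · exact (no_sq x 489626257184 699732 (by norm_num at h ⊢; omega) (by norm_num) (by norm_num)).elim
    · exact (no_sq x 489626242624 699732 (by norm_num at h ⊢; omega) (by norm_num) (by norm_num)).elim
    · exact (no_sq x 489626213504 699732 (by norm_num at h ⊢; omega) (by norm_num) (by norm_num)).elim
    · exact (no_sq x 489626155264 699732 (by norm_num at h ⊢; omega) (by norm_num) (by norm_num)).elim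
    · exact (no_sq x 489626038784 699732 (by norm_num at h ⊢; omega) (by norm_num) (by norm_num)).elim
    · exact (no_sq x 489625805824 699732 (by norm_num at h ⊢; omega) (by norm_num) (by norm_num)).elim
    · exact (no_sq x 489625339904 699732 (by norm_num at h ⊢; omega) (by norm_num) (by norm_num)).elim
    · exact (no_sq x 489624408064 699731 (by norm_num at h ⊢; omega) (by norm_num) (by norm_num)).elim
    · exact (no_sq x 489622544384 699730 (by norm_num at h ⊢; omega) (by norm_num) (by norm_num)).elim
    · exact (no_sq x 489618817024 699727 (by norm_num at h ⊢; omega) (by norm_num) (by norm_num)).elim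
    · exact (no_sq x 489611362304 699722 (by norm_num at h ⊢; omega) (by norm_num) (by norm_num)).elim
    · exact (no_sq x 489596452864 699711 (by norm_num at h ⊢; omega) (by norm_num) (by norm_num)).elim
    · exact (no_sq x 489566633984 699690 (by norm_num at h ⊢; omega) (by norm_num) (by norm_num)).elim
    · exact (no_sq x 489506996224 699647 (by norm_num at h ⊢; omega) (by norm_num) (by norm_num)).elim
    · exact (no_sq x 489387720704 699562 (by norm_num at h ⊢; omega) (by norm_num) (by norm_num)).elim
    · have h1 : x = 699392 := sq_unique x 699392 (by norm_num at h ⊢; omega)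
      simp [h1]
    · exact (no_sq x 488672067584 699050 (by norm_num at h ⊢; omega) (by norm_num) (by norm_num)).elim
    · have h1 : x = 698368 := sq_unique x 698368 (by norm_num at h ⊢; omega)
      simp [h1]
    · exact (no_sq x 485809455104 697000 (by norm_num at h ⊢; omega) (by norm_num) (by norm_num)).elim
    · exact (no_sq x 481992638464 694256 (by norm_num at h ⊢; omega) (by norm_num) (by norm_num)).elim
    · exact (no_sq x 474359005184 688737 (by norm_num at h ⊢; omega) (by norm_num) (by norm_num)).elim
    · exact (no_sq x 459091738624 677563 (by norm_num at h ⊢; omega) (by norm_num) (by norm_num)).elim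
    · exact (no_sq x 428557205504 654642 (by norm_num at h ⊢; omega) (by norm_num) (by norm_num)).elim
    · have h1 : x = 606208 := sq_unique x 606208 (by norm_num at h ⊢; omega)
      simp [h1]
    · exact (no_sq x 245350006784 495328 (by norm_num at h ⊢; omega) (by norm_num) (by norm_num)).elim
    · have h1 : x = 32768 := sq_unique x 32768 (by norm_num at h ⊢; omega)
      simp [h1]
  · rintro (⟨rfl, rfl⟩ | ⟨rfl, rfl⟩ | ⟨rfl, rfl⟩ | ⟨rfl, rfl⟩ | ⟨rfl, rfl⟩) <;> norm_num

/-- **Counterexample.**  The equation `x² + 455 · 2ⁿ = 489626271744` has exactly five solutions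
`(x, n)` in non-negative integers, so it is not true that `x² + A kⁿ = B` has at most four
such solutions for all `k ≥ 2` and all positive `A, B`. -/
theorem result : (sols 2 455 489626271744).ncard = 5 ∧
    ¬ ∀ k A B : ℕ, 2 ≤ k → 1 ≤ A → 1 ≤ B → (sols k A B).encard ≤ 4 := by
  have h5 : (sols 2 455 489626271744).encard = 5 := by
    rw [sols_eq]
    have : ({(699733, 0), (699392, 20), (698368, 22), (606208, 28), (32768, 30)} : Set (ℕ × ℕ))
        = (({(699733, 0), (699392, 20), (698368, 22), (606208, 28), (32768, 30)} :
          Finset (ℕ × ℕ)) : Set (ℕ × ℕ)) := by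
      push_cast
      rfl
    rw [this, Set.encard_coe_eq_coe_finsetCard]
    have hc : ({(699733, 0), (699392, 20), (698368, 22), (606208, 28), (32768, 30)} :
          Finset (ℕ × ℕ)).card = 5 := by decide
    rw [hc]
    rfl
  refine ⟨?_, ?_⟩
  · rw [Set.ncard, h5]
    rfl
  · intro h
    have h4 := h 2 455 489626271744 (by norm_num) (by norm_num) (by norm_num)
    rw [h5] at h4
    exact absurd h4 (by decide)

end Pool.Agent.Results.MP_ca3412_nt.FiveSolutions
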